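import Pool.Agent.H19M.Stm

/-!
# Project H19M, piece LV2

If `κ'` is invisible modulo `κ` at all scales and the `κ`-th powers of deep elements are in finitely many
balls of radius `r`, then their `κ'`-th powers are in finitely many balls of radius `r + ε`.
-/

set_option autoImplicit false

open Filter Topology Pool.Agent.N709.UM

universe u

namespace Pool.Agent.H19M

theorem lv2_alg {H : Type u} [Group H] {ρ : H → ℝ} (h : PN ρ) {t δ r : ℝ} (e k g X B Y : H)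
    (h1 : ρ (k * (g * X) * B) < δ) (h3 : ∀ c, ρ (X * c * X⁻¹) ≤ ρ c + t)
    (h5 : ρ (Y * (X⁻¹ * B⁻¹)⁻¹) < t) (h6 : ∀ c, ρ (B * c * B⁻¹) ≤ ρ c + t)
    (h7 : ρ (B * X * B⁻¹ * X⁻¹) < t) (h8 : ρ (e * Y) < r) : ρ (e * k * g) < r + 6 * t + δ := by
  have e1 : e * k * g = (e * Y) * ((B * (X * (Y * (X⁻¹ * B⁻¹)⁻¹)⁻¹ * X⁻¹) * B⁻¹) *
      ((B * X * B⁻¹ * X⁻¹) * (X * (B * (k * (g * X) * B) * B⁻¹) * X⁻¹))) := by
    group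
  have a1 := h.mul (e * Y) ((B * (X * (Y * (X⁻¹ * B⁻¹)⁻¹)⁻¹ * X⁻¹) * B⁻¹) *
      ((B * X * B⁻¹ * X⁻¹) * (X * (B * (k * (g * X) * B) * B⁻¹) * X⁻¹)))
  have a2 := h.mul (B * (X * (Y * (X⁻¹ * B⁻¹)⁻¹)⁻¹ * X⁻¹) * B⁻¹)
      ((B * X * B⁻¹ * X⁻¹) * (X * (B * (k * (g * X) * B) * B⁻¹) * X⁻¹))
  have a3 := h.mul (B * X * B⁻¹ * X⁻¹) (X * (B * (k * (g * X) * B) * B⁻¹) * X⁻¹)
  have a4 := h3 (B * (k * (g * X) * B) * B⁻¹)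
  have a5 := h6 (k * (g * X) * B)
  have a6 := h6 (X * (Y * (X⁻¹ * B⁻¹)⁻¹)⁻¹ * X⁻¹)
  have a7 := h3 (Y * (X⁻¹ * B⁻¹)⁻¹)⁻¹
  have a8 := h.inv (Y * (X⁻¹ * B⁻¹)⁻¹)
  rw [e1]
  linarith

/-- **LV2** -/
theorem lv2 : S_PWZ.{u} → S_LV2.{u} := by
  intro hPW H _ _ _ ρ hρ F hF κ κ' r ε hε h1 h2
  classical
  have hne : F.NeBot := by
    rw [neBot_iff]
    rintro rfl
    exact absurd (hF.one ∅ (by simp)) (by simp)
  set t : ℝ := ε / 8 with ht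
  have ht0 : 0 < t := by positivity
  obtain ⟨E1, hE1⟩ := h1 (ε / 4) (by positivity)
  obtain ⟨E2, hE2⟩ := h2
  refine ⟨(E1 ×ˢ E2).image (fun p => (p.2.1 * p.1.1, (0 : ℤ))), ?_⟩
  -- the set `A` of the elements with good `κ`-th powers
  have hA : ∀ᶠ y in F, ∃ e ∈ E2, ρ (e.1 * y ^ κ) < r := by
    filter_upwards [hE2] with y hy
    obtain ⟨e, he, hb⟩ := hy
    obtain ⟨b, hb⟩ := hb.exists
    refine ⟨e, he, ?_⟩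
    simpa using hb
  have hX0 := hF.mul _ hA
  have c2 : ∀ᶠ x in F, ∀ e ∈ E1, ∀ᶠ b in F, ∃ e' ∈ E2, ρ (e'.1 * (x ^ (-e.2) * b) ^ κ) < r := by
    rw [Filter.eventually_all_finset]
    intro e _
    exact hF.pow (-e.2) _ hX0
  have c3 : ∀ᶠ x in F, ∀ e ∈ E1, ∀ c, ρ (x ^ (κ * e.2) * c * (x ^ (κ * e.2))⁻¹) ≤ ρ c + t ∧
      ρ ((x ^ (κ * e.2))⁻¹ * c * x ^ (κ * e.2)) ≤ ρ c + t := by
    rw [Filter.eventually_all_finset]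
    intro e _
    exact hF.pow (κ * e.2) _ (hF.inv t ht0)
  filter_upwards [hE1, c2, c3] with x x1 x2 x3
  obtain ⟨e, he, hb⟩ := x1
  have x2 := x2 e he
  have x3 := x3 e he
  have d4 : ∀ᶠ b in F, ∃ e' ∈ E2, ρ (e'.1 * (x ^ (-e.2) * b⁻¹) ^ κ) < r := by
    have := hF.pow (-1) _ x2
    simpa using this
  have d5 : ∀ᶠ b in F, ρ ((x ^ (-e.2) * b⁻¹) ^ κ * ((x ^ (-e.2)) ^ κ * b⁻¹ ^ κ)⁻¹) < t := by
    have := hF.pow (-1) _ ((hPW H ρ hρ F hF (x ^ (-e.2)) κ t ht0).mono fun b hb => hb.1)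
    simpa using this
  have d6 : ∀ᶠ b in F, ∀ c, ρ (b ^ κ * c * (b ^ κ)⁻¹) ≤ ρ c + t ∧
      ρ ((b ^ κ)⁻¹ * c * b ^ κ) ≤ ρ c + t := hF.pow κ _ (hF.inv t ht0)
  have d7 : ∀ᶠ b in F, ρ (b ^ κ * x ^ (κ * e.2) * (b ^ κ)⁻¹ * (x ^ (κ * e.2))⁻¹) < t :=
    hF.pow κ _ ((hF.com t ht0 (x ^ (κ * e.2))).mono fun b hb => hb.1)
  obtain ⟨b, b1, b4, b5, b6, b7⟩ := (hb.and_eventually (d4.and (d5.and (d6.and d7)))).exists
  obtain ⟨e', he', b4⟩ := b4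
  have f1 : (x ^ (-e.2)) ^ κ = (x ^ (κ * e.2))⁻¹ := by
    rw [← zpow_mul, ← zpow_neg]
    congr 1
    ring
  rw [f1, inv_zpow] at b5
  rw [zpow_add] at b1
  have f2 := lv2_alg hρ.pn e'.1 e.1 (x ^ κ') (x ^ (κ * e.2)) (b ^ κ) ((x ^ (-e.2) * b⁻¹) ^ κ) b1
    (fun c => (x3 c).1) b5 (fun c => (b6 c).1) b7 b4
  refine ⟨(e'.1 * e.1, 0), Finset.mem_image.2 ⟨(e, e'), Finset.mem_product.2 ⟨he, he'⟩, rfl⟩, ?_⟩
  refine (Filter.Eventually.of_forall fun c => ?_).frequently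
  simp only [mul_zero, add_zero, zpow_zero, mul_one]
  linarith

end Pool.Agent.H19M
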