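import Pool.Agent.H19M.Stm2

set_option autoImplicit false

/-!
Project H19M (helper19), piece SEL: choice of a sequence with control of all later products.
-/

open Filter Topology Pool.Agent.N709.UM

universe u

namespace Pool.Agent.H19M

theorem tp_zero59 {H : Type u} [Group H] (v : ℕ → H) (n : ℕ) (c : ℕ → ℤ) : tp v n 0 c = 1 := by
  simp [tp]

theorem tp_succ59 {H : Type u} [Group H] (v : ℕ → H) (n l : ℕ) (c : ℕ → ℤ) :
    tp v n (l + 1) c = v n ^ c n * tp v (n + 1) l c := by
  unfold tp
  rw [List.range_succ_eq_map, List.map_cons, List.prod_cons, List.map_map]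
  congr 2
  apply List.map_congr_left
  intro i _
  simp only [Function.comp]
  rw [show n + (i + 1) = n + 1 + i by omega]

theorem sel : S_SEL.{u} := by
  intro H _ ρ F hF P R hP hR
  classical
  -- the step
  have step : ∀ (n : ℕ) (st : (ℕ → H) × {T : Set H // T ∈ F}),
      ∃ (x : H) (T' : {T : Set H // T ∈ F}), P n st.1 x ∧ (T' : Set H) ⊆ R n st.1 x ∧
        ∀ y ∈ (T' : Set H), ∀ c : ℤ, c.natAbs ≤ n → x ^ c * y ∈ (st.2 : Set H) := by
    intro n st
    obtain ⟨s, T, hT⟩ := st
    have hfin : Set.Finite {c : ℤ | c.natAbs ≤ n} := by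
      apply (Set.finite_Icc (-(n : ℤ)) (n : ℤ)).subset
      intro c hc
      have hc' : c.natAbs ≤ n := hc
      rw [Set.mem_Icc]
      omega
    have hA : ∀ᶠ x in F, ∀ c ∈ {c : ℤ | c.natAbs ≤ n}, ∀ᶠ y in F, x ^ c * y ∈ T := by
      rw [Filter.eventually_all_finite hfin]
      intro c _
      exact hF.pow c _ (hF.mul T hT)
    obtain ⟨x, hxA, hxP⟩ := hP n s _ hA
    have hxA' : ∀ c ∈ {c : ℤ | c.natAbs ≤ n}, ∀ᶠ y in F, x ^ c * y ∈ T := hxA
    have h1 : ∀ᶠ y in F, ∀ c ∈ {c : ℤ | c.natAbs ≤ n}, x ^ c * y ∈ T := by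
      rw [Filter.eventually_all_finite hfin]
      exact hxA'
    have h2 : ∀ᶠ y in F, y ∈ R n s x := hR n s x hxP
    refine ⟨x, ⟨{y | y ∈ R n s x ∧ ∀ c ∈ {c : ℤ | c.natAbs ≤ n}, x ^ c * y ∈ T}, h2.and h1⟩,
      hxP, fun y hy => hy.1, fun y hy c hc => hy.2 c hc⟩
  choose X T' hXP hXR hXT using step
  -- the recursion
  let st : ℕ → (ℕ → H) × {T : Set H // T ∈ F} := fun n =>
    Nat.rec (motive := fun _ => (ℕ → H) × {T : Set H // T ∈ F})
      ((fun _ => 1), ⟨Set.univ, univ_mem⟩)
      (fun k r => (Function.update r.1 k (X k r), T' k r)) n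
  have hst : ∀ n, st (n + 1) = (Function.update (st n).1 n (X n (st n)), T' n (st n)) :=
    fun n => rfl
  let v : ℕ → H := fun n => X n (st n)
  have hT : ∀ l n c, Bd c → tp v n l c ∈ ((st n).2 : Set H) := by
    intro l
    induction l with
    | zero =>
      intro n c _
      rw [tp_zero59]
      exact hF.one _ (st n).2.2
    | succ l ih =>
      intro n c hc
      rw [tp_succ59]
      have h := ih (n + 1) c hc
      rw [hst] at h
      exact hXT n (st n) _ h (c n) (hc n)
  refine ⟨v, fun n => (st n).1, ?_, fun n => ⟨hXP n (st n), ?_⟩⟩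
  · intro n
    induction n with
    | zero => intro j hj; omega
    | succ n ih =>
      intro j hj
      show (st (n + 1)).1 j = v j
      rw [hst]
      show Function.update (st n).1 n (X n (st n)) j = v j
      rcases Nat.lt_succ_iff_lt_or_eq.mp hj with h | h
      · rw [Function.update_of_ne (by omega)]
        exact ih j h
      · subst h
        rw [Function.update_self]
  · intro l c hc
    have h := hT l (n + 1) c hc
    rw [hst] at h
    exact hXR n (st n) h

end Pool.Agent.H19M

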